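import Pool.Agent.VTP.StmtsW

/-!
# VTP squad: positions of letters in Gauss words

For a Gauss word `w` the shadow has no repetition; `str` describes the two letters of a label and the
passages between them by their positions, `ilx` describes interlacement by `between`.
-/

set_option autoImplicit false

namespace Pool.Agent.VTP.H25

open Finset hiding shadow
open Pool.Agent.ZOL Pool.Agent.VTP

/-- decomposition of a Gauss word at a label -/
theorem dec {w : Word} (hw : IsGauss w) {d : ℕ} (hd : d ∈ labels w) :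
    ∃ (l : Letter) (u v z : Word), l.1 = d ∧ w = u ++ l :: (v ++ bar l :: z) ∧
      (∀ x ∈ u, x.1 ≠ d) ∧ (∀ x ∈ v, x.1 ≠ d) ∧ (∀ x ∈ z, x.1 ≠ d) := by
  obtain ⟨l, hl, hs⟩ := gauss_label hw hd
  unfold sub at hs
  rw [List.filter_eq_cons_iff] at hs
  obtain ⟨u, r, rfl, hu, _, hr⟩ := hs
  rw [List.filter_eq_cons_iff] at hr
  obtain ⟨v, z, rfl, hv, _, hz⟩ := hr
  rw [List.filter_eq_nil_iff] at hz
  refine ⟨l, u, v, z, hl, rfl, fun x hx => ?_, fun x hx => ?_, fun x hx => ?_⟩
  · have := hu x hx; simpa using this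
  · have := hv x hx; simpa using this
  · have := hz x hx; simpa using this

theorem shadow_append (u v : Word) : shadow (u ++ v) = shadow u ++ shadow v := by simp [shadow]

theorem shadow_cons (l : Letter) (w : Word) : shadow (l :: w) = (l.1, l.2.1) :: shadow w := rfl

theorem mem_shadow {w : Word} {x : ℕ × Bool} : x ∈ shadow w ↔ ∃ l ∈ w, (l.1, l.2.1) = x := by
  simp [shadow]

theorem mem_shadow_of_mem {w : Word} {l : Letter} (hl : l ∈ w) : (l.1, l.2.1) ∈ shadow w :=
  mem_shadow.2 ⟨l, hl, rfl⟩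

theorem label_of_mem_shadow {w : Word} {x : ℕ × Bool} (hx : x ∈ shadow w) : x.1 ∈ labels w := by
  obtain ⟨l, hl, rfl⟩ := mem_shadow.1 hx
  exact mem_labels_of_mem hl

theorem nodup_shadow {w : Word} (hw : IsGauss w) : (shadow w).Nodup := by
  rw [List.nodup_iff_count_le_one]
  intro x
  have h1 : List.count x (shadow w) = List.count x (shadow (sub {x.1} w)) := by
    have h2 : shadow (sub {x.1} w) = (shadow w).filter (fun y => decide (y.1 ∈ ({x.1} : Finset ℕ))) := by
      simp only [shadow, sub, List.filter_map]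
      rfl
    rw [h2, List.count_filter (by simp)]
  rw [h1]
  by_cases hx : x.1 ∈ labels w
  · obtain ⟨l, hl, hs⟩ := gauss_label hw hx
    rw [hs]
    simp only [shadow, bar, List.map_cons, List.map_nil, List.count_cons, List.count_nil]
    by_cases h3 : (l.1, l.2.1) = x
    · have h4 : ¬ (l.1, !l.2.1) = x := by
        rintro h5
        rw [← h3] at h5
        simp at h5
      simp [h3, h4]
    · by_cases h4 : (l.1, !l.2.1) = x <;> simp [h3, h4]
  · have h2 : sub {x.1} w = [] := sub_eq_nil (by simpa using hx)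
    rw [h2]; simp [shadow]

/-- `between` for a decomposed word -/
theorem between_dec {u v z : Word} {l : Letter} (hu : ∀ x ∈ u, x.1 ≠ l.1) (hv : ∀ x ∈ v, x.1 ≠ l.1) :
    between l.1 (shadow (u ++ l :: (v ++ bar l :: z))) = shadow v := by
  have h1 : shadow (u ++ l :: (v ++ bar l :: z)) =
      shadow u ++ (l.1, l.2.1) :: (shadow v ++ (l.1, !l.2.1) :: shadow z) := by
    simp [shadow, bar]
  have hu' : ∀ x ∈ shadow u, (fun x : ℕ × Bool => decide (x.1 ≠ l.1)) x = true := by
    intro x hx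
    obtain ⟨m, hm, rfl⟩ := mem_shadow.1 hx
    simpa using hu m hm
  have hv' : ∀ x ∈ shadow v, (fun x : ℕ × Bool => decide (x.1 ≠ l.1)) x = true := by
    intro x hx
    obtain ⟨m, hm, rfl⟩ := mem_shadow.1 hx
    simpa using hv m hm
  rw [h1]
  unfold between
  rw [List.dropWhile_append_of_pos hu', List.dropWhile_cons_of_neg (by simp), List.tail_cons,
    List.takeWhile_append_of_pos hv', List.takeWhile_cons_of_neg (by simp), List.append_nil]

/-- positions in a decomposed list -/
theorem idx_dec {U V Z : Shadow} {p q : ℕ × Bool} (hn : (U ++ p :: (V ++ q :: Z)).Nodup) :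
    (U ++ p :: (V ++ q :: Z)).idxOf p < (U ++ p :: (V ++ q :: Z)).idxOf q ∧
    ∀ x ∈ (U ++ p :: (V ++ q :: Z)), x ∈ V ↔
      (U ++ p :: (V ++ q :: Z)).idxOf p < (U ++ p :: (V ++ q :: Z)).idxOf x ∧
      (U ++ p :: (V ++ q :: Z)).idxOf x < (U ++ p :: (V ++ q :: Z)).idxOf q := by
  rw [List.nodup_append] at hn
  obtain ⟨hU, hn2, hd⟩ := hn
  rw [List.nodup_cons] at hn2
  obtain ⟨hp, hn3⟩ := hn2
  have hn3' := hn3
  rw [List.nodup_append] at hn3
  obtain ⟨hV, hn4, hd2⟩ := hn3
  rw [List.nodup_cons] at hn4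
  have hpU : p ∉ U := fun h => hd p h p (by simp) rfl
  have hqU : q ∉ U := fun h => hd q h q (by simp) rfl
  have hqV : q ∉ V := fun h => hd2 q h q (by simp) rfl
  have hqp : p ≠ q := by
    rintro rfl
    exact hp (by simp)
  have ip : (U ++ p :: (V ++ q :: Z)).idxOf p = U.length := by
    rw [List.idxOf_append_of_notMem hpU, List.idxOf_cons_self, Nat.add_zero]
  have iq : (U ++ p :: (V ++ q :: Z)).idxOf q = U.length + (V.length + 1) := by
    rw [List.idxOf_append_of_notMem hqU, List.idxOf_cons_ne _ hqp,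
      List.idxOf_append_of_notMem hqV, List.idxOf_cons_self, Nat.add_zero]
  rw [ip, iq]
  refine ⟨by omega, fun x hx => ?_⟩
  constructor
  · intro hxV
    have hxU : x ∉ U := fun h => hd x h x (by simp [hxV]) rfl
    have hxp : p ≠ x := by
      rintro rfl
      exact hp (by simp [hxV])
    have ix : (U ++ p :: (V ++ q :: Z)).idxOf x = U.length + (V.idxOf x + 1) := by
      rw [List.idxOf_append_of_notMem hxU, List.idxOf_cons_ne _ hxp,
        List.idxOf_append_of_mem hxV]
    have := List.idxOf_lt_length_of_mem hxV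
    omega
  · rintro ⟨h1, h2⟩
    by_contra hxV
    rcases List.mem_append.1 hx with hxU | hx2
    · have ix : (U ++ p :: (V ++ q :: Z)).idxOf x = U.idxOf x := List.idxOf_append_of_mem hxU
      have := List.idxOf_lt_length_of_mem hxU
      omega
    · have hxU : x ∉ U := fun h => hd x h x hx2 rfl
      rcases List.mem_cons.1 hx2 with rfl | hx3
      · omega
      · have hxp : p ≠ x := by
          rintro rfl
          exact hp hx3
        have ix : (U ++ p :: (V ++ q :: Z)).idxOf x = U.length + ((V.length + (q :: Z).idxOf x) + 1) := by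
          rw [List.idxOf_append_of_notMem hxU, List.idxOf_cons_ne _ hxp,
            List.idxOf_append_of_notMem hxV]
        omega

/-- the two letters of a label -/
theorem str {w : Word} (hw : IsGauss w) {d : ℕ} (hd : d ∈ labels w) :
    ∃ b : Bool, (d, b) ∈ shadow w ∧ (d, !b) ∈ shadow w ∧
      (shadow w).idxOf (d, b) < (shadow w).idxOf (d, !b) ∧ sg w d = eps (d, b) ∧
      (∀ x ∈ shadow w, x ∈ between d (shadow w) ↔
        (shadow w).idxOf (d, b) < (shadow w).idxOf x ∧
        (shadow w).idxOf x < (shadow w).idxOf (d, !b)) ∧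
      (∀ x ∈ between d (shadow w), x ∈ shadow w) := by
  have hn := nodup_shadow hw
  obtain ⟨l, u, v, z, rfl, rfl, hu, hv, hz⟩ := dec hw hd
  have h1 : shadow (u ++ l :: (v ++ bar l :: z)) =
      shadow u ++ (l.1, l.2.1) :: (shadow v ++ (l.1, !l.2.1) :: shadow z) := by
    simp [shadow, bar]
  have hb := between_dec (z := z) hu hv
  rw [hb]
  rw [h1] at hn
  obtain ⟨h2, h3⟩ := idx_dec hn
  refine ⟨l.2.1, ?_, ?_, ?_, ?_, ?_, ?_⟩
  · rw [h1]; simp
  · rw [h1]; simp
  · rw [h1]; exact h2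
  · unfold sg fstL
    have h4 : (u ++ l :: (v ++ bar l :: z)).find? (fun m => decide (m.1 = l.1)) = some l := by
      rw [List.find?_append]
      have h5 : u.find? (fun m => decide (m.1 = l.1)) = none := by
        rw [List.find?_eq_none]
        intro x hx
        simpa using hu x hx
      rw [h5]
      simp
    rw [h4]
    rfl
  · intro x hx
    rw [h1] at hx ⊢
    exact h3 x hx
  · intro x hx
    rw [h1]; simp [hx]

/-- the six ways to cut a list of length two in three -/
theorem cut3 {α : Type} {A B C : List α} {x y : α} (hh : A ++ (B ++ C) = [x, y]) :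
    (A = [x, y] ∧ B = [] ∧ C = []) ∨ (A = [x] ∧ B = [y] ∧ C = []) ∨
    (A = [x] ∧ B = [] ∧ C = [y]) ∨ (A = [] ∧ B = [x, y] ∧ C = []) ∨
    (A = [] ∧ B = [x] ∧ C = [y]) ∨ (A = [] ∧ B = [] ∧ C = [x, y]) := by
  rcases A with _ | ⟨a1, _ | ⟨a2, A⟩⟩
  · rcases B with _ | ⟨b1, _ | ⟨b2, B⟩⟩
    · simp at hh; simp [hh]
    · simp at hh; simp [hh]
    · simp at hh
      obtain ⟨h1, h2, h3, h4⟩ := hh
      simp [h1, h2, h3, h4]
  · rcases B with _ | ⟨b1, B⟩
    · simp at hh; simp [hh]
    · simp at hh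
      obtain ⟨h1, h2, h3, h4⟩ := hh
      simp [h1, h2, h3, h4]
  · simp at hh
    obtain ⟨h1, h2, h3, h4, h5⟩ := hh
    simp [h1, h2, h3, h4, h5]

theorem sub_pair_left {u : Word} {s d : ℕ} (hu : ∀ x ∈ u, x.1 ≠ s) : sub {s, d} u = sub {d} u := by
  apply List.filter_congr
  intro x hx
  have := hu x hx
  simp [this]

theorem mem_shadow_sub {v : Word} {d : ℕ} {b : Bool} :
    (d, b) ∈ shadow v ↔ (d, b) ∈ shadow (sub {d} v) := by
  simp only [mem_shadow, mem_sub]
  constructor
  · rintro ⟨l, hl, he⟩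
    exact ⟨l, ⟨hl, by rw [Prod.mk.injEq] at he; simp [he.1]⟩, he⟩
  · rintro ⟨l, ⟨hl, _⟩, he⟩
    exact ⟨l, hl, he⟩

/-- interlacement in terms of `between` -/
theorem ilx {w : Word} (hw : IsGauss w) {s d : ℕ} (hs : s ∈ labels w) (hd : d ∈ labels w)
    (hsd : s ≠ d) :
    il w s d ↔ ((d, true) ∈ between s (shadow w) ↔ ¬ (d, false) ∈ between s (shadow w)) := by
  obtain ⟨m, hm, hms⟩ := gauss_label hw hd
  obtain ⟨l, u, v, z, rfl, rfl, hu, hv, hz⟩ := dec hw hs
  rw [between_dec (z := z) hu hv, mem_shadow_sub (b := true), mem_shadow_sub (b := false)]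
  have hbar : (bar l).1 = l.1 := rfl
  have e1 : sub {d} (u ++ l :: (v ++ bar l :: z)) = sub {d} u ++ (sub {d} v ++ sub {d} z) := by
    rw [sub_append, sub_cons, sub_append, sub_cons, hbar]
    simp [hsd]
  have e2 : sub {l.1, d} (u ++ l :: (v ++ bar l :: z)) =
      sub {d} u ++ l :: (sub {d} v ++ bar l :: sub {d} z) := by
    rw [sub_append, sub_cons, sub_append, sub_cons, hbar, sub_pair_left hu, sub_pair_left hv,
      sub_pair_left hz]
    simp
  rw [e1] at hms
  have hd' : ¬ d = l.1 := fun h => hsd h.symm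
  have hmb : (bar m).1 = d := hm
  unfold il
  rw [e2]
  rcases cut3 hms with ⟨h1, h2, h3⟩ | ⟨h1, h2, h3⟩ | ⟨h1, h2, h3⟩ | ⟨h1, h2, h3⟩ | ⟨h1, h2, h3⟩ |
    ⟨h1, h2, h3⟩ <;> rw [h1, h2, h3] <;> rcases hb : m.2.1 with _ | _ <;>
    simp [shadow, bar, hm, hsd, hd', hb]

theorem il_symm {w : Word} {c d : ℕ} (hh : il w c d) : il w d c := by
  unfold il at hh ⊢
  rw [Finset.pair_comm d c]
  exact hh.symm

theorem il_irrefl {w : Word} (hw : IsGauss w) (c : ℕ) : ¬ il w c c := by
  unfold il
  rw [Finset.pair_eq_singleton]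
  by_cases hc : c ∈ labels w
  · obtain ⟨l, _, hl⟩ := gauss_label hw hc
    rw [hl]; simp
  · have h2 : sub {c} w = [] := sub_eq_nil (by simpa using hc)
    rw [h2]; simp

theorem il_labels {w : Word} {c d : ℕ} (hh : il w c d) :
    c ∈ labels w ∧ d ∈ labels w := by
  unfold il at hh
  have key : ∀ x : ℕ, x ∈ (sub {c, d} w).map Prod.fst → x ∈ labels w := by
    intro x hx
    obtain ⟨l, hl, rfl⟩ := List.mem_map.1 hx
    exact mem_labels_of_mem (mem_sub.1 hl).1
  rcases hh with hh | hh <;> rw [hh] at key <;> exact ⟨key c (by simp), key d (by simp)⟩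

end Pool.Agent.VTP.H25
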