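import Pool.Agent.Helper25_VTP.Idx

/-!
# VTP squad, row PLJ: the signed number of crossings between two components vanishes
-/

set_option autoImplicit false

namespace Pool.Agent.VTP.H25

open Finset hiding shadow
open Pool.Agent.ZOL Pool.Agent.VTP

theorem idx_dec' {U V Z : Shadow} {p q : ℕ × Bool} (hn : (U ++ p :: (V ++ q :: Z)).Nodup)
    {x : ℕ × Bool} (hxU : x ∉ U) (hxp : p ≠ x) (hxV : x ∉ V) (hxq : q ≠ x) :
    (U ++ p :: (V ++ q :: Z)).idxOf p < (U ++ p :: (V ++ q :: Z)).idxOf x ∧
    (U ++ p :: (V ++ q :: Z)).idxOf q < (U ++ p :: (V ++ q :: Z)).idxOf x := by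
  rw [List.nodup_append] at hn
  obtain ⟨hU, hn2, hd⟩ := hn
  rw [List.nodup_cons] at hn2
  obtain ⟨hp, hn3⟩ := hn2
  rw [List.nodup_append] at hn3
  obtain ⟨hV, hn4, hd2⟩ := hn3
  have hpU : p ∉ U := fun h => hd p h p (by simp) rfl
  have hqU : q ∉ U := fun h => hd q h q (by simp) rfl
  have hqV : q ∉ V := fun h => hd2 q h q (by simp) rfl
  have hqp : p ≠ q := by
    rintro rfl
    exact hp (by simp)
  have ip : (U ++ p :: (V ++ q :: Z)).idxOf p = U.length := by
    rw [List.idxOf_append_of_notMem hpU, List.idxOf_cons_self, Nat.add_zero]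
  have iq : (U ++ p :: (V ++ q :: Z)).idxOf q = U.length + (V.length + 1) := by
    rw [List.idxOf_append_of_notMem hqU, List.idxOf_cons_ne _ hqp,
      List.idxOf_append_of_notMem hqV, List.idxOf_cons_self, Nat.add_zero]
  have ix : (U ++ p :: (V ++ q :: Z)).idxOf x = U.length + ((V.length + (Z.idxOf x + 1)) + 1) := by
    rw [List.idxOf_append_of_notMem hxU, List.idxOf_cons_ne _ hxp,
      List.idxOf_append_of_notMem hxV, List.idxOf_cons_ne _ hxq]
  omega

/-- the order of the letters of two labels which do not meet -/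
theorem ord {w : Word} (hw : IsGauss w) {a c : ℕ} (hal : a ∈ labels w) (hac' : a ≠ c)
    (hac : (sub {a, c} w).map Prod.fst = [a, a, c, c]) :
    ∀ b b' : Bool, (c, b') ∈ shadow w →
      (shadow w).idxOf (a, b) < (shadow w).idxOf (c, b') := by
  have hn := nodup_shadow hw
  obtain ⟨l, u, v, z, rfl, rfl, hu, hv, hz⟩ := dec hw hal
  have hbar : (bar l).1 = l.1 := rfl
  have e2 : sub {l.1, c} (u ++ l :: (v ++ bar l :: z)) =
      sub {c} u ++ l :: (sub {c} v ++ bar l :: sub {c} z) := by
    rw [sub_append, sub_cons, sub_append, sub_cons, hbar, sub_pair_left hu, sub_pair_left hv,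
      sub_pair_left hz]
    simp
  rw [e2] at hac
  have hU : sub {c} u = [] := by
    rcases h : sub {c} u with _ | ⟨m, r⟩
    · rfl
    · exfalso
      have h1 : m ∈ sub {c} u := by rw [h]; simp
      have h2 : m.1 = c := by simpa using (mem_sub.1 h1).2
      rw [h] at hac
      simp only [List.cons_append, List.map_cons, List.cons.injEq] at hac
      exact hac' (hac.1.symm.trans h2)
  rw [hU] at hac
  have hV : sub {c} v = [] := by
    rcases h : sub {c} v with _ | ⟨m, r⟩
    · rfl
    · exfalso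
      have h1 : m ∈ sub {c} v := by rw [h]; simp
      have h2 : m.1 = c := by simpa using (mem_sub.1 h1).2
      rw [h] at hac
      simp only [List.nil_append, List.cons_append, List.map_cons, List.cons.injEq] at hac
      exact hac' (hac.2.1.symm.trans h2)
  have h1 : shadow (u ++ l :: (v ++ bar l :: z)) =
      shadow u ++ (l.1, l.2.1) :: (shadow v ++ (l.1, !l.2.1) :: shadow z) := by
    simp [shadow, bar]
  rw [h1] at hn
  intro b b' _
  have hcU : (c, b') ∉ shadow u := by
    rw [mem_shadow_sub, hU]; simp [shadow]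
  have hcV : (c, b') ∉ shadow v := by
    rw [mem_shadow_sub, hV]; simp [shadow]
  have hp : (l.1, l.2.1) ≠ (c, b') := fun h => hac' (Prod.mk.inj h).1
  have hq : (l.1, !l.2.1) ≠ (c, b') := fun h => hac' (Prod.mk.inj h).1
  have key := idx_dec' hn hcU hp hcV hq
  rw [h1]
  by_cases hb : b = l.2.1
  · rw [hb]; exact key.1
  · have hb' : b = !l.2.1 := by
      cases b <;> cases hl : l.2.1 <;> simp_all
    rw [hb']; exact key.2

theorem ilx' {w : Word} (hw : IsGauss w) {s d : ℕ} (hs : s ∈ labels w) (hd : d ∈ labels w)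
    (hsd : s ≠ d) (b : Bool) :
    il w s d ↔ ((d, b) ∈ between s (shadow w) ↔ ¬ (d, !b) ∈ between s (shadow w)) := by
  rw [ilx hw hs hd hsd]
  cases b
  · simp only [Bool.not_false]; tauto
  · simp only [Bool.not_true]

theorem bar_mem {w : Word} (hw : IsGauss w) {x : ℕ × Bool} (hx : x ∈ shadow w) :
    (x.1, !x.2) ∈ shadow w := by
  obtain ⟨b, h1, h2, _⟩ := str hw (label_of_mem_shadow hx)
  by_cases hb : b = x.2
  · rw [← hb]; exact h2
  · have hb' : b = !x.2 := by
      cases b <;> cases hl : x.2 <;> simp_all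
    rw [← hb']; exact h1

/-- bilinearity of the second planarity condition -/
theorem bil {v : Shadow} (hv : v.Nodup)
    (hP : ∀ a b : ℕ, (v.map (fun x => eps x * wt a v x * wt b v (x.1, !x.2))).sum = 0)
    (n n' : ℕ → ℤ) :
    ∑ x ∈ v.toFinset, eps x * lc v n x * lc v n' (x.1, !x.2) = 0 := by
  have h1 : ∀ a b, ∑ x ∈ v.toFinset, eps x * wt a v x * wt b v (x.1, !x.2) = 0 := fun a b => by
    rw [List.sum_toFinset _ hv]; exact hP a b
  have h2 : ∀ x ∈ v.toFinset, eps x * lc v n x * lc v n' (x.1, !x.2) =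
      ∑ a ∈ (v.map Prod.fst).toFinset, ∑ b ∈ (v.map Prod.fst).toFinset,
        n a * n' b * (eps x * wt a v x * wt b v (x.1, !x.2)) := by
    intro x _
    unfold lc
    rw [mul_assoc, Finset.sum_mul_sum, Finset.mul_sum]
    refine Finset.sum_congr rfl fun a _ => ?_
    rw [Finset.mul_sum]
    refine Finset.sum_congr rfl fun b _ => ?_
    ring
  rw [Finset.sum_congr rfl h2, Finset.sum_comm]
  refine Finset.sum_eq_zero fun a _ => ?_
  rw [Finset.sum_comm]
  refine Finset.sum_eq_zero fun b _ => ?_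
  rw [← Finset.mul_sum, h1, mul_zero]

/-- **Row PLJ.** -/
theorem plj (hPLS : PlsStmt) : PljStmt := by
  classical
  intro w a c hw hP hac S hS haS hcS hNI hil D hD
  by_cases hDe : D = ∅
  · rw [hDe, Finset.sum_empty]
  obtain ⟨d0, hd0⟩ := Finset.nonempty_iff_ne_empty.mpr hDe
  obtain ⟨hd0w, hd0S, hd0i, had0, hcd0⟩ := (hD d0).mp hd0
  have hal := (il_labels had0).1
  have hcl := (il_labels hcd0).1
  have hn := nodup_shadow hw
  have hacne : a ≠ c := by
    rintro rfl
    rw [Finset.pair_eq_singleton] at hac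
    obtain ⟨l, _, hl⟩ := gauss_label hw hal
    rw [hl] at hac
    simp at hac
  -- the two letters of `a` and `c`
  obtain ⟨ba, ha1, ha2, haL, _, haB, haM⟩ := str hw hal
  obtain ⟨bc, hc1, hc2, hcL, _, hcB, hcM⟩ := str hw hcl
  have hord := ord hw hal hacne hac
  have o1 := hord (!ba) bc hc1
  -- the two combinations
  have hNIa : NI (il w) (insert a S) := by
    intro x hx y hy
    rcases Finset.mem_insert.1 hx with rfl | hx1
    · rcases Finset.mem_insert.1 hy with rfl | hy1
      · exact il_irrefl hw _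
      · exact (hil y hy1).1
    · rcases Finset.mem_insert.1 hy with rfl | hy1
      · exact fun h => (hil x hx1).1 (il_symm h)
      · exact hNI x hx1 y hy1
  have hNIc : NI (il w) (insert c S) := by
    intro x hx y hy
    rcases Finset.mem_insert.1 hx with rfl | hx1
    · rcases Finset.mem_insert.1 hy with rfl | hy1
      · exact il_irrefl hw _
      · exact (hil y hy1).2
    · rcases Finset.mem_insert.1 hy with rfl | hy1
      · exact fun h => (hil x hx1).2 (il_symm h)
      · exact hNI x hx1 y hy1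
  obtain ⟨n, hn1, hn2⟩ := hPLS w hw S a hal hS haS hNIa
  obtain ⟨n', hn1', hn2'⟩ := hPLS w hw S c hcl hS hcS hNIc
  have hsum := bil hn hP.2 n n'
  -- labels interlaced with `a` and `c`
  have hlet : ∀ d, il w a d → il w c d → ∃ b : Bool, (d, b) ∈ between a (shadow w) ∧
      (d, !b) ∈ between c (shadow w) ∧ (d, b) ∈ shadow w ∧ (d, !b) ∈ shadow w ∧
      sg w d = eps (d, b) := by
    intro d h1 h2
    have hdl := (il_labels h1).2
    have hda : a ≠ d := by rintro rfl; exact il_irrefl hw _ h1
    have hdc : c ≠ d := by rintro rfl; exact il_irrefl hw _ h2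
    obtain ⟨b, hb1, hb2, hbL, hsg, _, _⟩ := str hw hdl
    have k1 := (ilx' hw hal hdl hda b).1 h1
    have k2 := (ilx' hw hcl hdl hdc b).1 h2
    rw [haB _ hb1, haB _ hb2] at k1
    rw [hcB _ hb1, hcB _ hb2] at k2
    refine ⟨b, (haB _ hb1).2 ?_, (hcB _ hb2).2 ?_, hb1, hb2, hsg⟩
    · omega
    · omega
  obtain ⟨b0, hx0, hx0', hm0, hm0', _⟩ := hlet d0 had0 hcd0
  have i1 := (haB _ hm0).1 hx0
  have i2 := (hcB _ hm0').1 hx0'
  -- interlacement with an element of `S`
  have hsd : ∀ s ∈ S, ∃ bs : Bool, (shadow w).idxOf (s, bs) < (shadow w).idxOf (s, !bs) ∧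
      (s, bs) ∈ shadow w ∧ (s, !bs) ∈ shadow w ∧
      (∀ x ∈ shadow w, x ∈ between s (shadow w) ↔
        (shadow w).idxOf (s, bs) < (shadow w).idxOf x ∧
        (shadow w).idxOf x < (shadow w).idxOf (s, !bs)) ∧
      ¬ (((shadow w).idxOf (a, ba) < (shadow w).idxOf (s, bs) ∧
        (shadow w).idxOf (s, bs) < (shadow w).idxOf (a, !ba)) ↔
        ¬ ((shadow w).idxOf (a, ba) < (shadow w).idxOf (s, !bs) ∧
        (shadow w).idxOf (s, !bs) < (shadow w).idxOf (a, !ba))) ∧
      ¬ (((shadow w).idxOf (c, bc) < (shadow w).idxOf (s, bs) ∧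
        (shadow w).idxOf (s, bs) < (shadow w).idxOf (c, !bc)) ↔
        ¬ ((shadow w).idxOf (c, bc) < (shadow w).idxOf (s, !bs) ∧
        (shadow w).idxOf (s, !bs) < (shadow w).idxOf (c, !bc))) := by
    intro s hs
    have hsl := hS hs
    have hsa : a ≠ s := by rintro rfl; exact haS hs
    have hsc : c ≠ s := by rintro rfl; exact hcS hs
    obtain ⟨bs, hb1, hb2, hbL, _, hbB, _⟩ := str hw hsl
    have k1 := (ilx' hw hal hsl hsa bs).not.1 (hil s hs).1
    have k2 := (ilx' hw hcl hsl hsc bs).not.1 (hil s hs).2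
    rw [haB _ hb1, haB _ hb2] at k1
    rw [hcB _ hb1, hcB _ hb2] at k2
    exact ⟨bs, hbL, hb1, hb2, hbB, k1, k2⟩
  -- a label with one letter in each interval, not in `S`
  have hD1 : ∀ x ∈ shadow w, x ∈ between a (shadow w) → (x.1, !x.2) ∈ between c (shadow w) →
      (x.1 ∈ D ↔ x.1 ∉ S ∧ incomp (shadow w) S a x ∧ incomp (shadow w) S c (x.1, !x.2)) := by
    intro x hx hxa hxc
    have hx' := bar_mem hw hx
    have hxl := label_of_mem_shadow hx
    have j1 := (haB _ hx).1 hxa
    have j2 := (hcB _ hx').1 hxc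
    rcases x with ⟨d, b⟩
    simp only at hx hxa hxc hx' hxl j1 j2 ⊢
    constructor
    · intro hdD
      obtain ⟨-, hdS, hdi, -, -⟩ := (hD d).1 hdD
      refine ⟨hdS, ⟨hxa, ?_⟩, ⟨hxc, ?_⟩⟩
      · rintro s hs ⟨y, hy, hys⟩ hxs
        obtain ⟨bs, q1, q2, q3, q4, q5, q6⟩ := hsd s hs
        have hds : s ≠ d := by rintro rfl; exact hdS hs
        apply hdi s hs
        rw [ilx' hw (hS hs) hxl hds b, q4 _ hx, q4 _ hx']
        rw [q4 _ hx] at hxs
        have hyb : y = (s, bs) ∨ y = (s, !bs) := by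
          rcases y with ⟨y1, y2⟩
          simp only at hys
          subst hys
          cases y2 <;> cases bs <;> simp
        have hyi := (haB _ (haM _ hy)).1 hy
        rcases hyb with rfl | rfl
        · omega
        · omega
      · rintro s hs ⟨y, hy, hys⟩ hxs
        obtain ⟨bs, q1, q2, q3, q4, q5, q6⟩ := hsd s hs
        have hds : s ≠ d := by rintro rfl; exact hdS hs
        apply hdi s hs
        rw [ilx' hw (hS hs) hxl hds b, q4 _ hx, q4 _ hx']
        rw [q4 _ hx'] at hxs
        have hyb : y = (s, bs) ∨ y = (s, !bs) := by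
          rcases y with ⟨y1, y2⟩
          simp only at hys
          subst hys
          cases y2 <;> cases bs <;> simp
        have hyi := (hcB _ (hcM _ hy)).1 hy
        rcases hyb with rfl | rfl
        · omega
        · omega
    · rintro ⟨hdS, ⟨-, hia⟩, ⟨-, hic⟩⟩
      have hda : a ≠ d := by
        rintro rfl
        by_cases hb : b = ba
        · rw [hb] at j1; omega
        · have hb' : b = !ba := by cases b <;> cases ba <;> simp_all
          rw [hb'] at j1; omega
      have hdc : c ≠ d := by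
        rintro rfl
        have := hord (!ba) b hx
        omega
      have hila : il w a d := by
        rw [ilx' hw hal hxl hda b, haB _ hx, haB _ hx']
        omega
      have hilc : il w c d := by
        rw [ilx' hw hcl hxl hdc b, hcB _ hx, hcB _ hx']
        omega
      refine (hD d).2 ⟨hxl, hdS, fun s hs => ?_, hila, hilc⟩
      obtain ⟨bs, q1, q2, q3, q4, q5, q6⟩ := hsd s hs
      have hds : s ≠ d := by rintro rfl; exact hdS hs
      have hd0s : s ≠ d0 := by rintro rfl; exact hd0S hs
      rw [ilx' hw (hS hs) hxl hds b, q4 _ hx, q4 _ hx']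
      have k0 := (ilx' hw (hS hs) hd0w hd0s b0).not.1 (hd0i s hs)
      rw [q4 _ hm0, q4 _ hm0'] at k0
      have r1 : ((shadow w).idxOf (a, ba) < (shadow w).idxOf (s, bs) ∧
          (shadow w).idxOf (s, bs) < (shadow w).idxOf (a, !ba)) →
          ¬ ((shadow w).idxOf (s, bs) < (shadow w).idxOf (d, b) ∧
            (shadow w).idxOf (d, b) < (shadow w).idxOf (s, !bs)) := by
        intro hh
        have := hia s hs ⟨(s, bs), (haB _ q2).2 hh, rfl⟩
        rwa [q4 _ hx] at this
      have r2 : ((shadow w).idxOf (c, bc) < (shadow w).idxOf (s, bs) ∧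
          (shadow w).idxOf (s, bs) < (shadow w).idxOf (c, !bc)) →
          ¬ ((shadow w).idxOf (s, bs) < (shadow w).idxOf (d, !b) ∧
            (shadow w).idxOf (d, !b) < (shadow w).idxOf (s, !bs)) := by
        intro hh
        have := hic s hs ⟨(s, bs), (hcB _ q2).2 hh, rfl⟩
        rwa [q4 _ hx'] at this
      omega
  -- the values of the terms
  have hval : ∀ x ∈ shadow w, eps x * lc (shadow w) n x * lc (shadow w) n' (x.1, !x.2) ≠ 0 →
      x ∈ between a (shadow w) ∧ (x.1, !x.2) ∈ between c (shadow w) ∧ x.1 ≠ a ∧ x.1 ≠ c ∧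
        x.1 ∉ S := by
    intro x hx hne
    have hx' := bar_mem hw hx
    have hxl := label_of_mem_shadow hx
    have e1 : lc (shadow w) n x ≠ 0 := by
      intro h; rw [h] at hne; simp at hne
    have e2 : lc (shadow w) n' (x.1, !x.2) ≠ 0 := by
      intro h; rw [h] at hne; simp at hne
    obtain ⟨l, hl, hlx⟩ := mem_shadow.1 hx
    obtain ⟨l', hl', hlx'⟩ := mem_shadow.1 hx'
    have f1 := hn2 l hl (by rw [hlx]; exact e1)
    have f2 := hn2' l' hl' (by rw [hlx']; exact e2)
    rw [hlx] at f1
    rw [hlx'] at f2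
    have g1 : l.1 = x.1 := by rw [← hlx]
    have g2 : l'.1 = x.1 := (Prod.mk.inj hlx').1
    rw [g1] at f1
    rw [g2] at f2
    have hxc : x.1 ≠ a := by
      intro h
      rcases f2 with f2 | f2
      · exact hacne (h.symm.trans f2)
      · have h3 := (hcB _ hx').1 f2
        rw [h] at h3
        have := hord (!x.2) bc hc1
        omega
    have f1' : x ∈ between a (shadow w) := by
      rcases f1 with f1 | f1
      · exact absurd f1 hxc
      · exact f1
    have j1 := (haB _ hx).1 f1'
    have hxc' : x.1 ≠ c := by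
      intro h
      have h4 : x = (c, x.2) := by rw [← h]
      have := hord (!ba) x.2 (by rw [← h4]; exact hx)
      rw [← h4] at this
      omega
    have f2' : (x.1, !x.2) ∈ between c (shadow w) := by
      rcases f2 with f2 | f2
      · exact absurd f2 hxc'
      · exact f2
    have j2 := (hcB _ hx').1 f2'
    refine ⟨f1', f2', hxc, hxc', fun hxS => ?_⟩
    apply (hil x.1 hxS).1
    rw [ilx' hw hal hxl (Ne.symm hxc) x.2, haB _ hx, haB _ hx']
    omega
  have hterm : ∀ x ∈ shadow w, x.1 ∈ D → x ∈ between a (shadow w) →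
      eps x * lc (shadow w) n x * lc (shadow w) n' (x.1, !x.2) = 4 * sg w x.1 := by
    intro x hx hxD hxa
    have hx' := bar_mem hw hx
    obtain ⟨hdl, hdS, hdi, hila, hilc⟩ := (hD x.1).1 hxD
    obtain ⟨b, hb1, hb2, hb3, hb4, hsg⟩ := hlet x.1 hila hilc
    have hxb : x.2 = b := by
      by_contra hne
      have hb' : x.2 = !b := by cases h : x.2 <;> cases b <;> simp_all
      have h5 : x = (x.1, !b) := by rw [← hb']
      have h6 := (haB _ hx).1 hxa
      have h7 := (hcB _ hb4).1 hb2
      rw [← h5] at h7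
      omega
    have hxe : x = (x.1, b) := by rw [← hxb]
    have hxc : (x.1, !x.2) ∈ between c (shadow w) := by rw [hxb]; exact hb2
    obtain ⟨-, hi1, hi2⟩ := (hD1 x hx hxa hxc).1 hxD
    obtain ⟨l, hl, hlx⟩ := mem_shadow.1 hx
    obtain ⟨l', hl', hlx'⟩ := mem_shadow.1 hx'
    have g1 : l.1 = x.1 := by rw [← hlx]
    have g2 : l'.1 = x.1 := (Prod.mk.inj hlx').1
    have hxa' : x.1 ≠ a := by intro h; rw [h] at hila; exact il_irrefl hw _ hila
    have hxc' : x.1 ≠ c := by intro h; rw [h] at hilc; exact il_irrefl hw _ hilc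
    have v1 := (hn1 l hl (by rw [g1]; exact hxa') (by rw [g1]; exact hdS)).1
      (by rw [hlx]; exact hi1)
    have v2 := (hn1' l' hl' (by rw [g2]; exact hxc') (by rw [g2]; exact hdS)).1
      (by rw [hlx']; exact hi2)
    rw [hlx] at v1
    rw [hlx'] at v2
    rw [v1, v2, hsg, ← hxe]
    ring
  -- the sum
  have hfin : ∑ x ∈ (shadow w).toFinset,
      eps x * lc (shadow w) n x * lc (shadow w) n' (x.1, !x.2) = ∑ d ∈ D, 4 * sg w d := by
    have hsub : ∑ x ∈ (shadow w).toFinset.filter (fun x => x.1 ∈ D ∧ x ∈ between a (shadow w)),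
        eps x * lc (shadow w) n x * lc (shadow w) n' (x.1, !x.2) =
        ∑ x ∈ (shadow w).toFinset,
          eps x * lc (shadow w) n x * lc (shadow w) n' (x.1, !x.2) := by
      apply Finset.sum_subset (Finset.filter_subset _ _)
      intro x hx hxn
      rw [List.mem_toFinset] at hx
      by_contra hne
      obtain ⟨h1, h2, h3, h4, h5⟩ := hval x hx hne
      apply hxn
      rw [Finset.mem_filter, List.mem_toFinset]
      refine ⟨hx, (hD1 x hx h1 h2).2 ⟨h5, ?_, ?_⟩, h1⟩
      · by_contra hni
        obtain ⟨l, hl, hlx⟩ := mem_shadow.1 hx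
        have g1 : l.1 = x.1 := by rw [← hlx]
        have v1 := (hn1 l hl (by rw [g1]; exact h3) (by rw [g1]; exact h5)).2
          (by rw [hlx]; exact hni)
        rw [hlx] at v1
        apply hne
        rw [v1]; ring
      · by_contra hni
        have hx' := bar_mem hw hx
        obtain ⟨l', hl', hlx'⟩ := mem_shadow.1 hx'
        have g2 : l'.1 = x.1 := (Prod.mk.inj hlx').1
        have v2 := (hn1' l' hl' (by rw [g2]; exact h4) (by rw [g2]; exact h5)).2
          (by rw [hlx']; exact hni)
        rw [hlx'] at v2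
        apply hne
        rw [v2]; ring
    rw [← hsub]
    refine Finset.sum_bij (fun x _ => x.1) ?_ ?_ ?_ ?_
    · intro x hx
      rw [Finset.mem_filter] at hx
      exact hx.2.1
    · intro x hx y hy hxy
      rw [Finset.mem_filter, List.mem_toFinset] at hx hy
      obtain ⟨hdl, hdS, hdi, hila, hilc⟩ := (hD x.1).1 hx.2.1
      obtain ⟨b, hb1, hb2, hb3, hb4, hsg⟩ := hlet x.1 hila hilc
      have h7 := (hcB _ hb4).1 hb2
      have key : ∀ y ∈ shadow w, y.1 = x.1 → y ∈ between a (shadow w) → y.2 = b := by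
        intro y hy1 hy2 hy3
        by_contra hne
        have hb' : y.2 = !b := by cases h : y.2 <;> cases b <;> simp_all
        have h5 : y = (x.1, !b) := by rw [← hb', ← hy2]
        have h6 := (haB _ hy1).1 hy3
        rw [← h5] at h7
        omega
      have h8 := key x hx.1 rfl hx.2.2
      have h9 := key y hy.1 hxy.symm hy.2.2
      exact Prod.ext hxy (h8.trans h9.symm)
    · intro d hd
      obtain ⟨hdl, hdS, hdi, hila, hilc⟩ := (hD d).1 hd
      obtain ⟨b, hb1, hb2, hb3, hb4, hsg⟩ := hlet d hila hilc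
      exact ⟨(d, b), by rw [Finset.mem_filter, List.mem_toFinset]; exact ⟨hb3, hd, hb1⟩, rfl⟩
    · intro x hx
      rw [Finset.mem_filter, List.mem_toFinset] at hx
      exact hterm x hx.1 hx.2.1 hx.2.2
  rw [hsum, ← Finset.mul_sum] at hfin
  omega

end Pool.Agent.VTP.H25
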